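import Mathlib
import Pool.Agent.H387Z.QI.Basis

set_option autoImplicit false

namespace Pool.Agent.Results.MP_b18726_al.ARightOrderable

universe u

open Pool.Agent.H387Z.QI

/-- The class of right-orderable groups is defined in the class of torsion-free groups by an
independent set of quasi-identities. -/
theorem result : ∃ S : Set QuasiIdentity,
    DefinesInTorsionFree S (fun (G : Type u) _ => RightOrderable G) ∧
      IndependentInTorsionFree.{u} S :=
  basis_ro

end Pool.Agent.Results.MP_b18726_al.ARightOrderable
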